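import Pool.Agent.W813.NC.Main

/-!
# Even and odd idempotents are orthogonal for the trace form
-/

set_option linter.unusedSectionVars false

open CategoryTheory Limits MonoidalCategory

namespace Pool.Agent.W813.NC

open Pool.Agent.W492.MT (tpow tr)
open Pool.Agent.W492.KC (swp gins gsym EvenFin OddFin)
open Pool.Agent.W239.KC (tr_cyc)

universe v u

theorem num' (T : Type u) [Category.{v} T] [MonoidalCategory T] [SymmetricCategory T]
    [RightRigidCategory T] [Preadditive T] [MonoidalPreadditive T] [IsIdempotentComplete T]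
    (F : Type) [Field F] [CharZero F] [Linear F T] (h1 : S_TRE T F) (h2 : S_SPL T) :
    S_NUM T F := by
  intro hsc N p q hp hq a b ha hb
  obtain ⟨A, ι, π, hA, hA'⟩ := IsIdempotentComplete.idempotents_split N p hp
  obtain ⟨B, ι', π', hB, hB'⟩ := IsIdempotentComplete.idempotents_split N q hq
  have ha' : gsym (-1) A a = 0 := by
    rw [h2 A N ι π hA, hA']
    exact ha
  have hb' : gsym 1 B b = 0 := by
    rw [h2 B N ι' π' hB, hB']
    exact hb
  constructor
  · intro s
    have := h1 hsc A B a b ha' hb' (ι ≫ π') (ι' ≫ s ≫ π)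
    rw [← hA', ← hB', Category.assoc, tr_cyc]
    simpa only [Category.assoc] using this
  · intro s
    have := h1 hsc A B a b ha' hb' (ι ≫ s ≫ π') (ι' ≫ π)
    rw [tr_cyc] at this
    rw [← hA', ← hB', Category.assoc, tr_cyc]
    simpa only [Category.assoc] using this

end Pool.Agent.W813.NC
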