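import Pool.Agent.W813.NC.Stm

/-!
# The one-parameter group preserves even (odd) idempotents
-/

set_option linter.unusedSectionVars false

open CategoryTheory Limits MonoidalCategory

namespace Pool.Agent.W813.NC

open Pool.Agent.W492.MT (tpow tr)
open Pool.Agent.W492.KC (swp gins gsym EvenFin OddFin)

universe v u v' u'

variable {C : Type u} [Category.{v} C] [Preadditive C] [MonoidalCategory C] [SymmetricCategory C]
  {D : Type u'} [Category.{v'} D] [Preadditive D] [MonoidalCategory D] [SymmetricCategory D]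
  [MonoidalPreadditive D] (F : Type) [Field F] [Linear F D] [MonoidalLinear F D]
  (Φ : C ⥤ D)

theorem kap_conj [Φ.Monoidal] (X : C) (p : Φ.obj X ⟶ Φ.obj X) (n : ℕ) :
    (kap Φ X (n + 1)).inv ≫ pwm p (n + 1) ≫ (kap Φ X (n + 1)).hom =
      Functor.OplaxMonoidal.δ Φ X (tpow X n) ≫
        (p ⊗ₘ ((kap Φ X n).inv ≫ pwm p n ≫ (kap Φ X n).hom)) ≫
          Functor.LaxMonoidal.μ Φ X (tpow X n) := by
  change (Functor.OplaxMonoidal.δ Φ X (tpow X n) ≫ (Φ.obj X ◁ (kap Φ X n).inv)) ≫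
    (p ⊗ₘ pwm p n) ≫ ((Φ.obj X ◁ (kap Φ X n).hom) ≫ Functor.LaxMonoidal.μ Φ X (tpow X n)) = _
  have h : (Φ.obj X ◁ (kap Φ X n).inv) ≫ (p ⊗ₘ pwm p n) ≫ (Φ.obj X ◁ (kap Φ X n).hom) =
      p ⊗ₘ ((kap Φ X n).inv ≫ pwm p n ≫ (kap Φ X n).hom) := by
    rw [← id_tensorHom, ← id_tensorHom, MonoidalCategory.tensorHom_comp_tensorHom,
      MonoidalCategory.tensorHom_comp_tensorHom, Category.id_comp, Category.comp_id]
  rw [← h]
  simp only [Category.assoc]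

theorem pev' [Φ.Braided] [Φ.Additive]
    (H : ∀ X Y : C, ℤ → Submodule F (Φ.obj X ⟶ Φ.obj Y)) (hfun : S_FUN Φ) : S_PEV F Φ H := by
  intro hH t ψ ht h1 h2 h3 X p ε n hp
  have hmap : ∀ {X Y : C} (f : X ⟶ Y), ψ X Y (Φ.map f) = Φ.map f := by
    intro X Y f
    rw [h1 X Y 0 _ (hH.map_mem f), zpow_zero, one_smul]
  have hA : ∀ n : ℕ, ψ (tpow X n) (tpow X n)
      ((kap Φ X n).inv ≫ pwm p n ≫ (kap Φ X n).hom) =
        (kap Φ X n).inv ≫ pwm (ψ X X p) n ≫ (kap Φ X n).hom := by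
    intro n
    induction n with
    | zero =>
      have e : (kap Φ X 0).inv ≫ 𝟙 _ ≫ (kap Φ X 0).hom = 𝟙 (Φ.obj (tpow X 0)) := by
        rw [Category.id_comp, Iso.inv_hom_id]
      change ψ (tpow X 0) (tpow X 0) ((kap Φ X 0).inv ≫ 𝟙 _ ≫ (kap Φ X 0).hom) =
        (kap Φ X 0).inv ≫ 𝟙 _ ≫ (kap Φ X 0).hom
      rw [e, ← Φ.map_id]
      exact hmap _
    | succ n ih =>
      rw [kap_conj, kap_conj]
      have := h3 X X (tpow X n) (tpow X n) p
        ((kap Φ X n).inv ≫ pwm p n ≫ (kap Φ X n).hom)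
      rw [ih] at this
      exact this
  have h4 : ((kap Φ X n).inv ≫ pwm p n ≫ (kap Φ X n).hom) ≫ Φ.map (gsym ε X n) = 0 := by
    have e : (kap Φ X n).hom ≫ Φ.map (gsym ε X n) = gsym ε (Φ.obj X) n ≫ (kap Φ X n).hom :=
      (hfun X ε n).symm
    have e2 : pwm p n ≫ gsym ε (Φ.obj X) n ≫ (kap Φ X n).hom = 0 := by
      rw [← Category.assoc, hp, zero_comp]
    rw [Category.assoc, Category.assoc, e, e2, comp_zero]
  have h5 : ((kap Φ X n).inv ≫ pwm (ψ X X p) n ≫ (kap Φ X n).hom) ≫ Φ.map (gsym ε X n) = 0 := by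
    rw [← hA n, ← hmap (gsym ε X n), ← h2, h4, map_zero]
  have h6 : (kap Φ X n).inv ≫ (pwm (ψ X X p) n ≫ gsym ε (Φ.obj X) n) ≫ (kap Φ X n).hom = 0 := by
    rw [Category.assoc, hfun X ε n]
    simpa only [Category.assoc] using h5
  have h7 : (pwm (ψ X X p) n ≫ gsym ε (Φ.obj X) n) ≫ (kap Φ X n).hom = 0 := by
    rw [← cancel_epi (kap Φ X n).inv, h6, comp_zero]
  rw [← cancel_mono (kap Φ X n).hom, h7, zero_comp]

end Pool.Agent.W813.NC
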