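import Pool.Agent.W813.NC.Stm

/-!
# Naturality of the symmetrisers
-/

set_option linter.unusedSectionVars false

open CategoryTheory Limits MonoidalCategory

namespace Pool.Agent.W813.NC

open Pool.Agent.W492.MT (tpow tr)
open Pool.Agent.W492.KC (swp gins gsym EvenFin OddFin)

universe v u v' u'

namespace Pwg

section
variable {T : Type u} [Category.{v} T] [MonoidalCategory T] [SymmetricCategory T]

theorem swp_p {X Y Z W : T} (f : X ⟶ Y) (p : Z ⟶ W) :
    swp X Z ≫ (f ⊗ₘ (f ⊗ₘ p)) = (f ⊗ₘ (f ⊗ₘ p)) ≫ swp Y W := by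
  simp only [swp, Category.assoc]
  rw [← associator_naturality, associator_inv_naturality_assoc, ← tensorHom_id,
    ← tensorHom_id, MonoidalCategory.tensorHom_comp_tensorHom_assoc,
    MonoidalCategory.tensorHom_comp_tensorHom_assoc,
    Category.id_comp, Category.comp_id, BraidedCategory.braiding_naturality]

variable [Preadditive T] [MonoidalPreadditive T]

theorem comp_id' {X Y : T} (f : X ⟶ Y) (n : ℕ) :
    pwm (𝟙 X) n ≫ pwm f n = pwm f n := by
  induction n with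
  | zero => exact Category.comp_id _
  | succ n ih =>
    change (𝟙 X ⊗ₘ pwm (𝟙 X) n) ≫ (f ⊗ₘ pwm f n) = f ⊗ₘ pwm f n
    rw [MonoidalCategory.tensorHom_comp_tensorHom, ih, Category.id_comp]

theorem pwm_comp {X Y Z : T} (f : X ⟶ Y) (g : Y ⟶ Z) (n : ℕ) :
    pwm (f ≫ g) n = pwm f n ≫ pwm g n := by
  induction n with
  | zero => exact (Category.comp_id _).symm
  | succ n ih =>
    change (f ≫ g) ⊗ₘ pwm (f ≫ g) n = (f ⊗ₘ pwm f n) ≫ (g ⊗ₘ pwm g n)
    rw [ih, MonoidalCategory.tensorHom_comp_tensorHom]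

theorem pwm_id (X : T) (n : ℕ) : pwm (𝟙 X) n = 𝟙 _ := by
  induction n with
  | zero => rfl
  | succ n ih =>
    change 𝟙 X ⊗ₘ pwm (𝟙 X) n = 𝟙 (X ⊗ tpow X n)
    rw [ih]
    simp

theorem gins_nat {X Y : T} (f : X ⟶ Y) (ε : ℤ) (n : ℕ) :
    gins ε X n ≫ (f ⊗ₘ pwm f n) = (f ⊗ₘ pwm f n) ≫ gins ε Y n := by
  induction n with
  | zero =>
    change 𝟙 _ ≫ (f ⊗ₘ pwm f 0) = (f ⊗ₘ pwm f 0) ≫ 𝟙 _
    rw [Category.comp_id, Category.id_comp]
  | succ n ih =>
    change (𝟙 (X ⊗ X ⊗ tpow X n) + ε • (swp X (tpow X n) ≫ (X ◁ gins ε X n))) ≫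
        (f ⊗ₘ (f ⊗ₘ pwm f n)) =
      (f ⊗ₘ (f ⊗ₘ pwm f n)) ≫
        (𝟙 (Y ⊗ Y ⊗ tpow Y n) + ε • (swp Y (tpow Y n) ≫ (Y ◁ gins ε Y n)))
    rw [Preadditive.add_comp, Preadditive.comp_add, Category.id_comp, Category.comp_id,
      Preadditive.zsmul_comp, Preadditive.comp_zsmul, Category.assoc]
    have h1 : (X ◁ gins ε X n) ≫ (f ⊗ₘ (f ⊗ₘ pwm f n)) =
        (f ⊗ₘ (f ⊗ₘ pwm f n)) ≫ (Y ◁ gins ε Y n) := by
      rw [← id_tensorHom, ← id_tensorHom, MonoidalCategory.tensorHom_comp_tensorHom,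
        MonoidalCategory.tensorHom_comp_tensorHom, ih, Category.id_comp, Category.comp_id]
    rw [h1, ← Category.assoc, swp_p, Category.assoc]

theorem gsym_nat {X Y : T} (f : X ⟶ Y) (ε : ℤ) (n : ℕ) :
    gsym ε X n ≫ pwm f n = pwm f n ≫ gsym ε Y n := by
  induction n with
  | zero =>
    change 𝟙 _ ≫ 𝟙 _ = 𝟙 _ ≫ 𝟙 _
    rfl
  | succ n ih =>
    change ((X ◁ gsym ε X n) ≫ gins ε X n) ≫ (f ⊗ₘ pwm f n) =
      (f ⊗ₘ pwm f n) ≫ (Y ◁ gsym ε Y n) ≫ gins ε Y n
    rw [Category.assoc, gins_nat, ← Category.assoc, ← Category.assoc]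
    congr 1
    rw [← id_tensorHom, ← id_tensorHom, MonoidalCategory.tensorHom_comp_tensorHom,
      MonoidalCategory.tensorHom_comp_tensorHom, ih, Category.id_comp, Category.comp_id]

end

variable (T : Type u) [Category.{v} T] [MonoidalCategory T] [SymmetricCategory T]
  [Preadditive T] [MonoidalPreadditive T]

theorem pwg : S_PWG T := fun _ _ f ε n => gsym_nat f ε n

theorem spl : S_SPL T := by
  intro A N ι π h ε n
  constructor
  · intro hA
    rw [pwm_comp, Category.assoc, ← gsym_nat, hA, zero_comp, comp_zero]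
  · intro hN
    have h1 : gsym ε A n = pwm ι n ≫ (pwm (π ≫ ι) n ≫ gsym ε N n) ≫ pwm π n := by
      rw [pwm_comp]
      simp only [Category.assoc]
      rw [gsym_nat, ← Category.assoc (pwm ι n) (pwm π n), ← pwm_comp, h, pwm_id,
        Category.id_comp, ← Category.assoc (pwm ι n), ← pwm_comp, h, pwm_id, Category.id_comp]
    rw [h1, hN, zero_comp, comp_zero]

end Pwg

end Pool.Agent.W813.NC
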