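import Pool.Agent.W813.NC.Stm

/-!
# The part of degree 0 is determined by the one-parameter group
-/

set_option linter.unusedSectionVars false

open CategoryTheory Limits MonoidalCategory

namespace Pool.Agent.W813.NC

universe v u v' u'

theorem poly_zero {F : Type} [Field F] [CharZero F] (s : Finset ℤ) (c : ℤ → F) (w : F)
    (h : ∀ t : F, t ≠ 0 → ∑ i ∈ s, t ^ i * c i = w) : w = if 0 ∈ s then c 0 else 0 := by
  obtain ⟨N, hN⟩ : ∃ N : ℕ, ∀ i ∈ s, 0 ≤ (N : ℤ) + i := by
    refine ⟨∑ i ∈ s, i.natAbs, fun i hi => ?_⟩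
    have h1 : i.natAbs ≤ ∑ i ∈ s, i.natAbs :=
      Finset.single_le_sum (f := fun i : ℤ => i.natAbs) (fun _ _ => Nat.zero_le _) hi
    omega
  let P : Polynomial F := (∑ i ∈ s, Polynomial.C (c i) * Polynomial.X ^ ((N : ℤ) + i).toNat) -
    Polynomial.C w * Polynomial.X ^ N
  have hP : P = 0 := by
    refine Polynomial.eq_zero_of_infinite_isRoot P ?_
    refine Set.Infinite.mono (s := {t : F | t ≠ 0}) ?_ ?_
    · intro t ht
      change Polynomial.eval t P = 0
      have ht' : t ≠ 0 := ht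
      have h1 := h t ht'
      simp only [P, Polynomial.eval_sub, Polynomial.eval_finset_sum, Polynomial.eval_mul,
        Polynomial.eval_C, Polynomial.eval_pow, Polynomial.eval_X]
      rw [sub_eq_zero, ← h1, Finset.sum_mul]
      refine Finset.sum_congr rfl fun i hi => ?_
      have h2 : t ^ ((N : ℤ) + i).toNat = t ^ N * t ^ i := by
        rw [← zpow_natCast, Int.toNat_of_nonneg (hN i hi), zpow_add₀ ht', zpow_natCast]
      rw [h2]
      ring
    · have : {t : F | t ≠ 0} = ({0} : Set F)ᶜ := by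
        ext t
        simp
      rw [this]
      exact (Set.finite_singleton 0).infinite_compl
  have h3 := congrArg (fun q => Polynomial.coeff q N) hP
  simp only [P, Polynomial.coeff_sub, Polynomial.finset_sum_coeff, Polynomial.coeff_C_mul,
    Polynomial.coeff_X_pow, Polynomial.coeff_zero] at h3
  rw [sub_eq_zero] at h3
  have h4 : ∀ i ∈ s, c i * (if N = ((N : ℤ) + i).toNat then (1 : F) else 0) =
      if i = 0 then c 0 else 0 := by
    intro i hi
    have h5 : 0 ≤ (N : ℤ) + i := hN i hi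
    by_cases h0 : i = 0
    · subst h0
      have h6 : N = ((N : ℤ) + 0).toNat := by omega
      rw [if_pos h6, if_pos rfl, mul_one]
    · have h6 : ¬ N = ((N : ℤ) + i).toNat := by omega
      rw [if_neg h6, if_neg h0, mul_zero]
  rw [Finset.sum_congr rfl h4, Finset.sum_ite_eq'] at h3
  rw [h3]
  simp

section
variable {C : Type u} [Category.{v} C] [Preadditive C] [MonoidalCategory C] [SymmetricCategory C]
  {D : Type u'} [Category.{v'} D] [Preadditive D] [MonoidalCategory D] [SymmetricCategory D]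
  [MonoidalPreadditive D] (F : Type) [Field F] [Linear F D] [MonoidalLinear F D]
  (Φ : C ⥤ D)

theorem vdm' [CharZero F] [Φ.Monoidal] (H : ∀ X Y : C, ℤ → Submodule F (Φ.obj X ⟶ Φ.obj Y)) :
    S_VDM F Φ H := by
  classical
  intro hH X Y f
  let L : (DirectSum ℤ fun i => H X Y i) ≃ₗ[F] (Φ.obj X ⟶ Φ.obj Y) :=
    LinearEquiv.ofBijective (DirectSum.coeLinearMap (H X Y)) (hH.internal X Y)
  have hL : ∀ (i : ℤ) (g : H X Y i), L (DirectSum.lof F ℤ (fun i => H X Y i) i g) = g := by
    intro i g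
    exact DirectSum.coeLinearMap_lof (H X Y) i g
  have hL' : ∀ (i : ℤ) (g : H X Y i), L.symm (g : Φ.obj X ⟶ Φ.obj Y) =
      DirectSum.lof F ℤ (fun i => H X Y i) i g := by
    intro i g
    rw [LinearEquiv.symm_apply_eq, hL]
  set d := L.symm f with hd
  refine ⟨(d 0 : Φ.obj X ⟶ Φ.obj Y), (d 0).2, ?_⟩
  intro V _ _ φ hφ
  have hf : f = ∑ i ∈ d.support, ((d i : H X Y i) : Φ.obj X ⟶ Φ.obj Y) := by
    have h1 : f = L d := by rw [hd, LinearEquiv.apply_symm_apply]
    have h2 : d = ∑ i ∈ d.support, DirectSum.lof F ℤ (fun i => H X Y i) i (d i) := by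
      exact (DirectSum.sum_support_of d).symm
    rw [h1]
    conv_lhs => rw [h2]
    rw [map_sum]
    exact Finset.sum_congr rfl fun i _ => hL i (d i)
  -- the scaling operators
  have hψ : ∀ t : F, t ≠ 0 → ∑ i ∈ d.support, t ^ i • φ (d i) = φ f := by
    intro t ht
    let ψ : (Φ.obj X ⟶ Φ.obj Y) →ₗ[F] (Φ.obj X ⟶ Φ.obj Y) :=
      (DirectSum.toModule F ℤ (Φ.obj X ⟶ Φ.obj Y) (fun i => t ^ i • (H X Y i).subtype)) ∘ₗ
        L.symm.toLinearMap
    have hψ1 : ∀ (i : ℤ) (g : Φ.obj X ⟶ Φ.obj Y), g ∈ H X Y i → ψ g = t ^ i • g := by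
      intro i g hg
      change DirectSum.toModule F ℤ (Φ.obj X ⟶ Φ.obj Y) (fun i => t ^ i • (H X Y i).subtype)
        (L.symm g) = _
      have h1 := hL' i ⟨g, hg⟩
      change L.symm g = _ at h1
      rw [h1, DirectSum.toModule_lof]
      rfl
    have h2 := hφ t ψ ht hψ1
    rw [← h2]
    conv_rhs => rw [hf]
    rw [map_sum, map_sum]
    refine Finset.sum_congr rfl fun i _ => ?_
    rw [hψ1 i _ (d i).2, map_smul]
  -- linear functionals
  rw [← sub_eq_zero, ← Module.forall_dual_apply_eq_zero_iff F]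
  intro l
  rw [map_sub, sub_eq_zero]
  have h3 : ∀ t : F, t ≠ 0 → ∑ i ∈ d.support, t ^ i * l (φ (d i)) = l (φ f) := by
    intro t ht
    rw [← hψ t ht, map_sum]
    refine Finset.sum_congr rfl fun i _ => ?_
    rw [map_smul, smul_eq_mul]
  rw [poly_zero d.support (fun i => l (φ (d i))) _ h3]
  by_cases h0 : (0 : ℤ) ∈ d.support
  · rw [if_pos h0]
  · rw [if_neg h0]
    have : d 0 = 0 := by
      rwa [DFinsupp.mem_support_iff, not_not] at h0
    rw [this]
    simp

end

end Pool.Agent.W813.NC
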