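import Pool.Agent.W813.NC.Ret
import Pool.Agent.W813.NC.Num
import Pool.Agent.W813.NC.Vdm
import Pool.Agent.W813.NC.Pev
import Pool.Agent.W813.NC.Pwg
import Pool.Agent.W258.NC.Trr
import Pool.Agent.W581.NC.NWT
import Pool.Agent.W992.NC.Alg
import Pool.Agent.W308.NC.Tre
import Pool.Agent.W431.NC.LIF
import Pool.Agent.W915.NC.Psi
import Pool.Agent.W817.NC.NLP
import Pool.Agent.W173.NC.Nil
import Pool.Agent.W972.NC.Fun

/-!
# Kimura finiteness descends along the functor to the orbit category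
-/

set_option linter.unusedSectionVars false

open CategoryTheory Limits MonoidalCategory

namespace Pool.Agent.W813.NC

open Pool.Agent.W492.MT (tpow tr)
open Pool.Agent.W492.KC (swp gins gsym EvenFin OddFin)

universe v u v' u'

section
variable (T : Type u) [Category.{v} T] [MonoidalCategory T] [SymmetricCategory T]
  [Preadditive T] [MonoidalPreadditive T] [RightRigidCategory T]
  (F : Type) [Field F] [CharZero F] [Linear F T]

theorem tre_all : S_TRE T F :=
  Pool.Agent.W308.NC.tre F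
    (Pool.Agent.W581.NC.nwt T (Pool.Agent.W258.NC.trr T) (Pwg.pwg T))
    (Pool.Agent.W992.NC.alg F)

variable [IsIdempotentComplete T]

theorem num_all : S_NUM T F := num' T F (tre_all T F) (Pwg.spl T)

theorem nlp_all : S_NLP T F :=
  Pool.Agent.W817.NC.nlp T F (Pwg.spl T) (fun N => Pool.Agent.W173.NC.nil F (End N))

end

section
variable {C : Type u} [Category.{v} C] [Preadditive C] [MonoidalCategory C] [SymmetricCategory C]
  [HasBinaryBiproducts C] [IsIdempotentComplete C]
  {D : Type u'} [Category.{v'} D] [Preadditive D] [MonoidalCategory D] [SymmetricCategory D]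
  [RightRigidCategory D] [HasBinaryBiproducts D] [IsIdempotentComplete D]
  [MonoidalPreadditive D] (F : Type) [Field F] [CharZero F] [Linear F D] [MonoidalLinear F D]
  (Φ : C ⥤ D) [Φ.Braided] [Φ.Additive] [Φ.Faithful]
  (H : ∀ X Y : C, ℤ → Submodule F (Φ.obj X ⟶ Φ.obj Y))

theorem descent (hH : OrbitGrading F Φ H) (hsc : ∀ e : 𝟙_ D ⟶ 𝟙_ D, ∃ a : F, e = a • 𝟙 _)
    (M : C) (h : KimuraFin (Φ.obj M)) : KimuraFin M :=
  down F Φ H hH hsc (Pwg.pwg D) (Pwg.spl D) (num_all D F) (nlp_all D F)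
    (fun _ => Pool.Agent.W431.NC.lif _ _ _ _) (Pool.Agent.W915.NC.psi F Φ H)
    (vdm' F Φ H) (Pool.Agent.W972.NC.fun_sym Φ) (pev' F Φ H (Pool.Agent.W972.NC.fun_sym Φ)) M h

theorem ascent (M : C) (h : KimuraFin M) : KimuraFin (Φ.obj M) :=
  up Φ (Pool.Agent.W972.NC.fun_sym Φ) M h

theorem descent_retract (hH : OrbitGrading F Φ H)
    (hsc : ∀ e : 𝟙_ D ⟶ 𝟙_ D, ∃ a : F, e = a • 𝟙 _)
    (M : C) (N : D) (r : Retract (Φ.obj M) N) (h : KimuraFin N) : KimuraFin M :=
  descent F Φ H hH hsc M (retract_kimura F hsc (Pwg.spl D) (tre_all D F) (nlp_all D F)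
    r.i r.r r.retract h)

end

end Pool.Agent.W813.NC
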