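import Pool.Agent.W813.NC.Stm

/-!
# Assembly
-/

set_option linter.unusedSectionVars false

open CategoryTheory Limits MonoidalCategory

namespace Pool.Agent.W813.NC

open Pool.Agent.W492.MT (tpow tr)
open Pool.Agent.W492.KC (swp gins gsym EvenFin OddFin)
open Pool.Agent.W239.KC (rpt)

universe v u v' u'

theorem conj_idem {R : Type v} [Ring R] (I : Set R) (hadd : ∀ x ∈ I, ∀ y ∈ I, x + y ∈ I)
    (hr : ∀ x ∈ I, ∀ y, x * y ∈ I) (hl : ∀ x ∈ I, ∀ y, y * x ∈ I)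
    (hn : ∀ x ∈ I, IsNilpotent x) (p e : R) (hp : p * p = p) (he : e * e = e) (hpe : p - e ∈ I) :
    ∃ u : Rˣ, p * u = u * e := by
  have h1 : e - p ∈ I := by
    have := hr _ hpe (-1)
    rwa [mul_neg_one, neg_sub] at this
  have h2 : p * (e - p) + (p - e) * e ∈ I := hadd _ (hl _ h1 p) _ (hr _ hpe e)
  have h3 : IsUnit (1 + (p * (e - p) + (p - e) * e)) := (hn _ h2).isUnit_one_add
  obtain ⟨u, hu⟩ := h3
  refine ⟨u, ?_⟩
  rw [hu]
  have e1 : p * (1 + (p * (e - p) + (p - e) * e)) = p * e := by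
    have : p * (1 + (p * (e - p) + (p - e) * e)) =
      p + (p * p) * e - (p * p) * p + (p * p) * e - p * (e * e) := by noncomm_ring
    rw [this, hp, he, hp]
    noncomm_ring
  have e2 : (1 + (p * (e - p) + (p - e) * e)) * e = p * e := by
    have : (1 + (p * (e - p) + (p - e) * e)) * e =
      e + p * (e * e) - (p * p) * e + p * (e * e) - (e * e) * e := by noncomm_ring
    rw [this, hp, he, he]
    noncomm_ring
  rw [e1, e2]

section
variable {T : Type u} [Category.{v} T] [MonoidalCategory T] [SymmetricCategory T] [Preadditive T]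
  [MonoidalPreadditive T]

theorem pwm_id (X : T) (n : ℕ) : pwm (𝟙 X) n = 𝟙 _ := by
  induction n with
  | zero => rfl
  | succ n ih =>
    change 𝟙 X ⊗ₘ pwm (𝟙 X) n = 𝟙 (X ⊗ tpow X n)
    rw [ih]
    simp

theorem pwm_comp {X Y Z : T} (f : X ⟶ Y) (g : Y ⟶ Z) (n : ℕ) :
    pwm (f ≫ g) n = pwm f n ≫ pwm g n := by
  induction n with
  | zero => exact (Category.comp_id _).symm
  | succ n ih =>
    change (f ≫ g) ⊗ₘ pwm (f ≫ g) n = (f ⊗ₘ pwm f n) ≫ (g ⊗ₘ pwm g n)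
    rw [ih, MonoidalCategory.tensorHom_comp_tensorHom]

theorem gsym_conj (hpwg : S_PWG T) {N : T} (p e : N ⟶ N) (u : N ≅ N) (h : p ≫ u.hom = u.hom ≫ e)
    (ε : ℤ) (n : ℕ) (he : pwm e n ≫ gsym ε N n = 0) : pwm p n ≫ gsym ε N n = 0 := by
  have h1 : p = u.hom ≫ e ≫ u.inv := by
    rw [← Category.assoc, ← h, Category.assoc, Iso.hom_inv_id, Category.comp_id]
  rw [h1, pwm_comp, pwm_comp, Category.assoc, Category.assoc, ← hpwg, ← Category.assoc (pwm e n),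
    he, zero_comp, comp_zero]

theorem gsym_iso (hspl : S_SPL T) {X Y : T} (e : X ≅ Y) (ε : ℤ) (n : ℕ) (h : gsym ε Y n = 0) :
    gsym ε X n = 0 := by
  rw [hspl X Y e.hom e.inv (by simp)]
  rw [h, comp_zero]

end

section
variable {T : Type u} [Category.{v} T] [MonoidalCategory T] [SymmetricCategory T]
  [RightRigidCategory T] [Preadditive T] [MonoidalPreadditive T]

theorem tr_zero' {X : T} : tr (0 : X ⟶ X) = 0 := by
  simp [tr]

theorem tr_add' {X : T} (a b : X ⟶ X) : tr (a + b) = tr a + tr b := by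
  simp [tr, MonoidalPreadditive.add_whiskerRight]

theorem tr_sub' {X : T} (a b : X ⟶ X) : tr (a - b) = tr a - tr b := by
  have h := tr_add' (a - b) b
  rw [sub_add_cancel] at h
  rw [h, add_sub_cancel_right]

theorem Num.zero (X : T) : Num (0 : X ⟶ X) := fun s => by
  rw [zero_comp, tr_zero']

theorem Num.add {X : T} {x y : X ⟶ X} (hx : Num x) (hy : Num y) : Num (x + y) := fun s => by
  rw [Preadditive.add_comp, tr_add', hx, hy, add_zero]

theorem Num.comp_right {X : T} {x : X ⟶ X} (hx : Num x) (y : X ⟶ X) : Num (x ≫ y) := fun s => by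
  rw [Category.assoc]
  exact hx _

theorem Num.comp_left {X : T} {x : X ⟶ X} (hx : Num x) (y : X ⟶ X) : Num (y ≫ x) := fun s => by
  rw [Category.assoc, Pool.Agent.W239.KC.tr_cyc, Category.assoc]
  exact hx _

theorem tr_smul' {F : Type*} [Field F] [Linear F T] [MonoidalLinear F T] {X : T} (r : F)
    (a : X ⟶ X) : tr (r • a) = r • tr a := by
  simp [tr]

/-- `f ↦ tr (f ≫ s)` as a linear map. -/
def trS (F : Type) [Field F] [Linear F T] [MonoidalLinear F T] {X : T} (s : X ⟶ X) :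
    (X ⟶ X) →ₗ[F] (𝟙_ T ⟶ 𝟙_ T) where
  toFun f := tr (f ≫ s)
  map_add' f g := by rw [Preadditive.add_comp, tr_add']
  map_smul' r f := by rw [Linear.smul_comp, tr_smul', RingHom.id_apply]

end

section
variable {C : Type u} [Category.{v} C] [Preadditive C] [MonoidalCategory C] [SymmetricCategory C]
  [HasBinaryBiproducts C] [IsIdempotentComplete C]
  {D : Type u'} [Category.{v'} D] [Preadditive D] [MonoidalCategory D] [SymmetricCategory D]
  [RightRigidCategory D] [HasBinaryBiproducts D] [IsIdempotentComplete D]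
  [MonoidalPreadditive D] (F : Type) [Field F] [CharZero F] [Linear F D] [MonoidalLinear F D]
  (Φ : C ⥤ D) [Φ.Braided] [Φ.Additive] [Φ.Faithful]
  (H : ∀ X Y : C, ℤ → Submodule F (Φ.obj X ⟶ Φ.obj Y))

theorem gsym_down (hfun : S_FUN Φ) {X : C} {ε : ℤ} {n : ℕ} (h : gsym ε (Φ.obj X) n = 0) :
    gsym ε X n = 0 := by
  apply Φ.map_injective
  have h1 := hfun X ε n
  rw [h, zero_comp] at h1
  rw [Functor.map_zero, ← cancel_epi (kap Φ X n).hom, comp_zero]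
  exact h1.symm

theorem gsym_up (hfun : S_FUN Φ) {X : C} {ε : ℤ} {n : ℕ} (h : gsym ε X n = 0) :
    gsym ε (Φ.obj X) n = 0 := by
  have h1 := hfun X ε n
  rw [h, Functor.map_zero, comp_zero] at h1
  rw [← cancel_mono (kap Φ X n).hom, zero_comp]
  exact h1

theorem up (hfun : S_FUN Φ) (M : C) (h : KimuraFin M) :
    KimuraFin (Φ.obj M) := by
  obtain ⟨A, B, ⟨a, ha⟩, ⟨b, hb⟩, ⟨e⟩⟩ := h
  have : PreservesBinaryBiproducts Φ := preservesBinaryBiproducts_of_preservesBiproducts Φ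
  exact ⟨Φ.obj A, Φ.obj B, ⟨a, gsym_up Φ hfun ha⟩, ⟨b, gsym_up Φ hfun hb⟩,
    ⟨Φ.mapIso e ≪≫ Φ.mapBiprod A B⟩⟩

/-- The ring homomorphism `End M → End (Φ M)`. -/
def mapE (M : C) : End M →+* End (Φ.obj M) where
  toFun f := Φ.map f
  map_one' := Φ.map_id M
  map_mul' f g := Φ.map_comp g f
  map_zero' := Φ.map_zero M M
  map_add' f g := Φ.map_add (f := f) (g := g)

theorem kimuraFin_of_idem (M : C) (p : M ⟶ M) (hp : p ≫ p = p)
    (h1 : ∀ (X : C) (ι : X ⟶ M) (π : M ⟶ X), ι ≫ π = 𝟙 X → π ≫ ι = p → EvenFin X)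
    (h2 : ∀ (X : C) (ι : X ⟶ M) (π : M ⟶ X), ι ≫ π = 𝟙 X → π ≫ ι = 𝟙 M - p → OddFin X) :
    KimuraFin M := by
  have hq : (𝟙 M - p) ≫ (𝟙 M - p) = 𝟙 M - p := by
    rw [Preadditive.sub_comp, Preadditive.comp_sub, Preadditive.comp_sub, hp]
    simp
  obtain ⟨X, ι, π, hX, hX'⟩ := IsIdempotentComplete.idempotents_split M p hp
  obtain ⟨Y, ι', π', hY, hY'⟩ := IsIdempotentComplete.idempotents_split M _ hq
  have hpq : p ≫ (𝟙 M - p) = 0 := by
    rw [Preadditive.comp_sub, hp, Category.comp_id, sub_self]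
  have hqp : (𝟙 M - p) ≫ p = 0 := by
    rw [Preadditive.sub_comp, hp, Category.id_comp, sub_self]
  have e1 : ι ≫ π' = 0 := by
    have h : ι ≫ (π ≫ ι) ≫ (π' ≫ ι') ≫ π' = 0 := by
      rw [hX', hY', ← Category.assoc p, hpq, zero_comp, comp_zero]
    have h' : ι ≫ (π ≫ ι) ≫ (π' ≫ ι') ≫ π' = (ι ≫ π) ≫ (ι ≫ π') ≫ (ι' ≫ π') := by
      simp only [Category.assoc]
    rw [h', hX, hY, Category.id_comp, Category.comp_id] at h
    exact h
  have e2 : ι' ≫ π = 0 := by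
    have h : ι' ≫ (π' ≫ ι') ≫ (π ≫ ι) ≫ π = 0 := by
      rw [hX', hY', ← Category.assoc (𝟙 M - p), hqp, zero_comp, comp_zero]
    have h' : ι' ≫ (π' ≫ ι') ≫ (π ≫ ι) ≫ π = (ι' ≫ π') ≫ (ι' ≫ π) ≫ (ι ≫ π) := by
      simp only [Category.assoc]
    rw [h', hX, hY, Category.id_comp, Category.comp_id] at h
    exact h
  refine ⟨X, Y, h1 X ι π hX hX', h2 Y ι' π' hY hY', ⟨?_⟩⟩
  refine ⟨biprod.lift π π', biprod.desc ι ι', ?_, ?_⟩
  · rw [biprod.lift_desc, hX', hY']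
    abel
  · apply biprod.hom_ext'
    · rw [biprod.inl_desc_assoc, Category.comp_id]
      apply biprod.hom_ext
      · rw [Category.assoc, biprod.lift_fst, hX, biprod.inl_fst]
      · rw [Category.assoc, biprod.lift_snd, e1, biprod.inl_snd]
    · rw [biprod.inr_desc_assoc, Category.comp_id]
      apply biprod.hom_ext
      · rw [Category.assoc, biprod.lift_fst, e2, biprod.inr_fst]
      · rw [Category.assoc, biprod.lift_snd, hY, biprod.inr_snd]

theorem down (hH : OrbitGrading F Φ H) (hsc : ∀ e : 𝟙_ D ⟶ 𝟙_ D, ∃ a : F, e = a • 𝟙 _)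
    (hpwg : S_PWG D) (hspl : S_SPL D) (hnum : S_NUM D F) (hnlp : S_NLP D F)
    (hlif : ∀ M : C, S_LIF (End M) (End (Φ.obj M)) (mapE Φ M) {x | Num (X := Φ.obj M) x})
    (hpsi : S_PSI F Φ H) (hvdm : S_VDM F Φ H)
    (hfun : S_FUN Φ) (hpev : S_PEV F Φ H) (M : C) (h : KimuraFin (Φ.obj M)) :
    KimuraFin M := by
  obtain ⟨A, B, ⟨a, ha⟩, ⟨b, hb⟩, ⟨i⟩⟩ := h
  -- the idempotent of the given decomposition
  obtain ⟨N, hN⟩ : ∃ N, N = Φ.obj M := ⟨_, rfl⟩
  let e : Φ.obj M ⟶ Φ.obj M := (i.hom ≫ biprod.fst) ≫ (biprod.inl ≫ i.inv)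
  have he1 : (biprod.inl ≫ i.inv) ≫ (i.hom ≫ biprod.fst) = 𝟙 A := by simp
  have hf1 : (biprod.inr ≫ i.inv) ≫ (i.hom ≫ biprod.snd) = 𝟙 B := by simp
  have he' : 𝟙 (Φ.obj M) - e = (i.hom ≫ biprod.snd) ≫ (biprod.inr ≫ i.inv) := by
    have : i.hom ≫ (biprod.fst ≫ biprod.inl + biprod.snd ≫ biprod.inr) ≫ i.inv =
        𝟙 (Φ.obj M) := by
      rw [biprod.total]
      simp
    rw [sub_eq_iff_eq_add, ← this]
    simp only [e, Preadditive.comp_add, Preadditive.add_comp, Category.assoc]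
    rw [add_comm]
  have hee : e ≫ e = e := by simp [e]
  have hqq : (𝟙 (Φ.obj M) - e) ≫ (𝟙 (Φ.obj M) - e) = 𝟙 (Φ.obj M) - e := by
    rw [Preadditive.sub_comp, Preadditive.comp_sub, Preadditive.comp_sub, hee]
    simp
  have hE : pwm e a ≫ gsym (-1) (Φ.obj M) a = 0 := (hspl A (Φ.obj M) _ _ he1 (-1) a).1 ha
  have hO : pwm (𝟙 (Φ.obj M) - e) b ≫ gsym 1 (Φ.obj M) b = 0 := by
    rw [he']
    exact (hspl B (Φ.obj M) _ _ hf1 1 b).1 hb
  -- the degree zero part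
  obtain ⟨f₀, hf₀, hf⟩ := hvdm hH M M e
  obtain ⟨x, rfl⟩ := hH.exists_map f₀ hf₀
  have hx : Num (Φ.map x - e) := by
    intro s
    rw [Preadditive.sub_comp, tr_sub', sub_eq_zero]
    refine (hf (𝟙_ D ⟶ 𝟙_ D) (trS F s) ?_).symm
    intro t ψ₀ ht hψ₀
    obtain ⟨ψ, hψ1, hψ2, hψ3⟩ := hpsi hH t ht
    have hψψ : ψ₀ = ψ M M := by
      have h1 : (⊤ : Submodule F (Φ.obj M ⟶ Φ.obj M)) ≤ LinearMap.eqLocus ψ₀ (ψ M M) := by
        rw [← (hH.internal M M).submodule_iSup_eq_top]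
        refine iSup_le fun j g hg => ?_
        rw [LinearMap.mem_eqLocus, hψ₀ j g hg, hψ1 M M j g hg]
      exact LinearMap.ext fun g => h1 Submodule.mem_top
    subst hψψ
    have hid : ψ M M (𝟙 (Φ.obj M)) = 𝟙 (Φ.obj M) := by
      have h1 : 𝟙 (Φ.obj M) ∈ H M M 0 := by
        rw [← Φ.map_id]
        exact hH.map_mem _
      rw [hψ1 M M 0 _ h1, zpow_zero, one_smul]
    have hE' := hpev hH t ψ ht hψ1 hψ2 hψ3 M e (-1) a hE
    have hO' := hpev hH t ψ ht hψ1 hψ2 hψ3 M (𝟙 (Φ.obj M) - e) 1 b hO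
    rw [map_sub, hid] at hO'
    have hee' : ψ M M e ≫ ψ M M e = ψ M M e := by rw [← hψ2, hee]
    have hqq' : (𝟙 (Φ.obj M) - ψ M M e) ≫ (𝟙 (Φ.obj M) - ψ M M e) =
        𝟙 (Φ.obj M) - ψ M M e := by
      rw [Preadditive.sub_comp, Preadditive.comp_sub, Preadditive.comp_sub, hee']
      simp
    have k1 := (hnum hsc (Φ.obj M) e (𝟙 (Φ.obj M) - ψ M M e) hee hqq' a b hE hO').1 s
    have k2 := (hnum hsc (Φ.obj M) (ψ M M e) (𝟙 (Φ.obj M) - e) hee' hqq a b hE' hO).2 s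
    change tr (ψ M M e ≫ s) = tr (e ≫ s)
    have k3 : ψ M M e ≫ s - e ≫ s =
        (𝟙 (Φ.obj M) - e) ≫ ψ M M e ≫ s - e ≫ (𝟙 (Φ.obj M) - ψ M M e) ≫ s := by
      simp only [Preadditive.sub_comp, Preadditive.comp_sub, Category.id_comp]
      abel
    rw [← sub_eq_zero, ← tr_sub', k3, tr_sub', k1, k2, sub_zero]
  -- lifting
  have hnil : ∀ r : End (Φ.obj M), Num (X := Φ.obj M) r → IsNilpotent r :=
    hnlp hsc (Φ.obj M) e hee a b hE hO
  obtain ⟨p, hp, hpe⟩ := hlif M (fun f g h => Φ.map_injective h) (Num.zero _)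
    (fun x hx y hy => Num.add hx hy) (fun x hx y => Num.comp_left hx y)
    (fun x hx y => Num.comp_right hx y) hnil x e hee hx
  obtain ⟨u, hu⟩ := conj_idem (R := End (Φ.obj M)) {x | Num (X := Φ.obj M) x}
    (fun x hx y hy => Num.add hx hy) (fun x hx y => Num.comp_left hx y)
    (fun x hx y => Num.comp_right hx y) hnil (mapE Φ M p) e
    (by rw [← map_mul, hp]) hee hpe
  -- `u : N ≅ N` with `e ≫ u⁻¹ ...`
  let U : Φ.obj M ≅ Φ.obj M := ⟨((u⁻¹ : (End (Φ.obj M))ˣ) : End (Φ.obj M)), (u : End (Φ.obj M)),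
    u.mul_inv, u.inv_mul⟩
  have hU : Φ.map p ≫ U.hom = U.hom ≫ e := by
    have hq : ∀ (a b : End (Φ.obj M)), a * u = u * b →
        ((u⁻¹ : (End (Φ.obj M))ˣ) : End (Φ.obj M)) * a =
        b * ((u⁻¹ : (End (Φ.obj M))ˣ) : End (Φ.obj M)) := by
      intro a b hab
      rw [Units.inv_mul_eq_iff_eq_mul, ← mul_assoc, ← hab, mul_assoc, Units.mul_inv, mul_one]
    exact hq (mapE Φ M p) e hu
  have hU' : (𝟙 (Φ.obj M) - Φ.map p) ≫ U.hom = U.hom ≫ (𝟙 (Φ.obj M) - e) := by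
    rw [Preadditive.sub_comp, Preadditive.comp_sub, hU, Category.id_comp, Category.comp_id]
  have hPE := gsym_conj hpwg (Φ.map p) e U hU (-1) a hE
  have hPO := gsym_conj hpwg (𝟙 (Φ.obj M) - Φ.map p) _ U hU' 1 b hO
  have hp' : (p : M ⟶ M) ≫ p = p := hp
  refine kimuraFin_of_idem M p hp' (fun X ι π h1 h2 => ⟨a, ?_⟩) (fun X ι π h1 h2 => ⟨b, ?_⟩)
  · apply gsym_down Φ hfun
    rw [hspl (Φ.obj X) (Φ.obj M) (Φ.map ι) (Φ.map π) (by rw [← Φ.map_comp, h1, Φ.map_id]),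
      ← Φ.map_comp, h2]
    exact hPE
  · apply gsym_down Φ hfun
    rw [hspl (Φ.obj X) (Φ.obj M) (Φ.map ι) (Φ.map π) (by rw [← Φ.map_comp, h1, Φ.map_id]),
      ← Φ.map_comp, h2, Φ.map_sub, Φ.map_id]
    exact hPO

end

end Pool.Agent.W813.NC
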