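import Pool.Agent.W813.NC.Main

/-!
# Retracts of Kimura finite objects are Kimura finite
-/

set_option linter.unusedSectionVars false

open CategoryTheory Limits MonoidalCategory

namespace Pool.Agent.W813.NC

open Pool.Agent.W492.MT (tpow tr)
open Pool.Agent.W492.KC (swp gins gsym EvenFin OddFin)
open Pool.Agent.W239.KC (rpt)

universe v u v' u'

section ring
variable {R : Type v} [Ring R] (I : Set R) (h0 : (0 : R) ∈ I)
  (hadd : ∀ x ∈ I, ∀ y ∈ I, x + y ∈ I)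
  (hr : ∀ x ∈ I, ∀ y, x * y ∈ I) (hl : ∀ x ∈ I, ∀ y, y * x ∈ I)

include h0 hadd hl in
theorem pow_sub_mem (x : R) (hx : x * x - x ∈ I) (k : ℕ) : x ^ (k + 1) - x ∈ I := by
  induction k with
  | zero =>
    rw [zero_add, pow_one, sub_self]
    exact h0
  | succ k ih =>
    have e : x ^ (k + 1 + 1) - x = x * (x ^ (k + 1) - x) + (x * x - x) := by
      rw [pow_succ' x (k + 1)]
      noncomm_ring
    rw [e]
    exact hadd _ (hl _ ih x) _ hx

include h0 hadd hr hl in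
theorem lift_idem (hn : ∀ x ∈ I, IsNilpotent x) (x : R) (hx : x * x - x ∈ I) :
    ∃ p : R, p * p = p ∧ p - x ∈ I := by
  have hneg : ∀ y ∈ I, -y ∈ I := fun y hy => by
    have := hr y hy (-1)
    rwa [mul_neg_one] at this
  obtain ⟨n, hn'⟩ := hn _ (hneg _ hx)
  have h1 : (x - x ^ 2) ^ (n + 1) = 0 := by
    have e : x - x ^ 2 = -(x * x - x) := by rw [pow_two, neg_sub]
    rw [e, pow_succ, hn', zero_mul]
  refine ⟨1 - (1 - x ^ (n + 1)) ^ (n + 1), isIdempotentElem_one_sub_one_sub_pow_pow _ _ h1, ?_⟩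
  have h2 := pow_sub_mem I h0 hadd hl x hx n
  set y := 1 - x ^ (n + 1) with hy
  have h3 : y * y - y ∈ I := by
    have e : y * y - y = x ^ (2 * n + 1 + 1) - x + -(x ^ (n + 1) - x) := by
      have e1 : x ^ (2 * n + 1 + 1) = x ^ (n + 1) * x ^ (n + 1) := by
        rw [← pow_add]
        congr 1
        omega
      rw [e1, hy]
      noncomm_ring
    rw [e]
    exact hadd _ (pow_sub_mem I h0 hadd hl x hx _) _ (hneg _ h2)
  have h4 := pow_sub_mem I h0 hadd hl y h3 n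
  have e : 1 - y ^ (n + 1) - x = -(y ^ (n + 1) - y) + (x ^ (n + 1) - x) := by
    rw [hy]
    abel
  rw [e]
  exact hadd _ (hneg _ h4) _ h2

end ring

section
variable {T : Type u} [Category.{v} T] [MonoidalCategory T] [SymmetricCategory T]
  [RightRigidCategory T] [Preadditive T] [MonoidalPreadditive T]

open Pool.Agent.W239.KC (tr_cyc)

theorem retract_gsym (hspl : S_SPL T) {A P : T} (f : P ⟶ A) (g : A ⟶ P) (h : f ≫ g = 𝟙 P)
    (ε : ℤ) (n : ℕ) (hA : gsym ε A n = 0) : gsym ε P n = 0 := by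
  rw [hspl P A f g h, hA, comp_zero]

/-- a retract of an even (odd) object `A` -/
theorem unit_retract (hspl : S_SPL T) {X A : T} (f : X ⟶ A) (g : A ⟶ X)
    (hnil : ∀ r : End X, Num (X := X) r → IsNilpotent r) (h : Num (f ≫ g - 𝟙 X))
    (ε : ℤ) (n : ℕ) (hA : gsym ε A n = 0) : gsym ε X n = 0 := by
  let z : End X := (f ≫ g - 𝟙 X : X ⟶ X)
  have h1 : IsUnit (1 + z) := (hnil z h).isUnit_one_add
  obtain ⟨w, hw⟩ := h1
  have hw' : (w : End X) = f ≫ g := by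
    rw [hw]
    change 𝟙 X + (f ≫ g - 𝟙 X) = _
    abel
  have h2 : (f ≫ g) ≫ ((w⁻¹ : (End X)ˣ) : End X) = 𝟙 X := by
    rw [← hw']
    exact w.inv_mul
  exact retract_gsym hspl f (g ≫ ((w⁻¹ : (End X)ˣ) : End X)) (by rw [← Category.assoc, h2]) ε n hA

/-- numerically trivial endomorphisms of a retract are nilpotent -/
theorem nil_retract {X N : T} (j : X ⟶ N) (q : N ⟶ X) (hjq : j ≫ q = 𝟙 X)
    (hnil : ∀ r : End N, Num (X := N) r → IsNilpotent r) :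
    ∀ r : End X, Num (X := X) r → IsNilpotent r := by
  intro y hy
  let z : End N := (q ≫ (y : X ⟶ X) ≫ j : N ⟶ N)
  have h1 : Num (X := N) z := by
    intro s
    change tr ((q ≫ (y : X ⟶ X) ≫ j) ≫ s) = 0
    rw [Category.assoc, tr_cyc]
    have := hy (j ≫ s ≫ q)
    simpa only [Category.assoc] using this
  obtain ⟨n, hn⟩ := hnil z h1
  have h2 : ∀ k : ℕ, ((y ^ (k + 1) : End X) : X ⟶ X) =
      j ≫ ((z ^ (k + 1) : End N) : N ⟶ N) ≫ q := by
    intro k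
    induction k with
    | zero =>
      rw [zero_add, pow_one, pow_one]
      have : j ≫ (q ≫ (y : X ⟶ X) ≫ j) ≫ q = (j ≫ q) ≫ (y : X ⟶ X) ≫ (j ≫ q) := by
        simp only [Category.assoc]
      change (y : X ⟶ X) = j ≫ (q ≫ (y : X ⟶ X) ≫ j) ≫ q
      rw [this, hjq, Category.id_comp, Category.comp_id]
    | succ k ih =>
      rw [pow_succ, pow_succ z]
      change (y : X ⟶ X) ≫ ((y ^ (k + 1) : End X) : X ⟶ X) =
        j ≫ ((q ≫ (y : X ⟶ X) ≫ j) ≫ ((z ^ (k + 1) : End N) : N ⟶ N)) ≫ q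
      have : j ≫ ((q ≫ (y : X ⟶ X) ≫ j) ≫ ((z ^ (k + 1) : End N) : N ⟶ N)) ≫ q =
          (j ≫ q) ≫ (y : X ⟶ X) ≫ (j ≫ ((z ^ (k + 1) : End N) : N ⟶ N) ≫ q) := by
        simp only [Category.assoc]
      rw [this, ← ih, hjq, Category.id_comp]
  refine ⟨n + 1, ?_⟩
  have h3 := h2 n
  rw [pow_succ z, hn, zero_mul] at h3
  change ((y ^ (n + 1) : End X) : X ⟶ X) = 0
  rw [h3]
  exact (congrArg (j ≫ ·) zero_comp).trans comp_zero

theorem retract_kimura [HasBinaryBiproducts T] [IsIdempotentComplete T] (F : Type) [Field F]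
    [CharZero F] [Linear F T]
    (hsc : ∀ e : 𝟙_ T ⟶ 𝟙_ T, ∃ a : F, e = a • 𝟙 _) (hspl : S_SPL T) (htre : S_TRE T F)
    (hnlp : S_NLP T F) {P N : T} (ι : P ⟶ N) (π : N ⟶ P) (hr : ι ≫ π = 𝟙 P)
    (h : KimuraFin N) : KimuraFin P := by
  obtain ⟨A, B, ⟨a, ha⟩, ⟨b, hb⟩, ⟨i⟩⟩ := h
  obtain ⟨ιA, hιA⟩ : ∃ z, z = biprod.inl ≫ i.inv := ⟨_, rfl⟩
  obtain ⟨ιB, hιB⟩ : ∃ z, z = biprod.inr ≫ i.inv := ⟨_, rfl⟩
  obtain ⟨πA, hπA⟩ : ∃ z, z = i.hom ≫ (biprod.fst : A ⊞ B ⟶ A) := ⟨_, rfl⟩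
  obtain ⟨πB, hπB⟩ : ∃ z, z = i.hom ≫ (biprod.snd : A ⊞ B ⟶ B) := ⟨_, rfl⟩
  have hAA : ιA ≫ πA = 𝟙 A := by rw [hιA, hπA]; simp
  have hBB : ιB ≫ πB = 𝟙 B := by rw [hιB, hπB]; simp
  have htot : πA ≫ ιA + πB ≫ ιB = 𝟙 N := by
    have : i.hom ≫ (biprod.fst ≫ biprod.inl + biprod.snd ≫ biprod.inr) ≫ i.inv = 𝟙 N := by
      rw [biprod.total]
      simp
    rw [← this, hιA, hιB, hπA, hπB]
    simp only [Preadditive.comp_add, Preadditive.add_comp, Category.assoc]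
  have hE : pwm (πA ≫ ιA) a ≫ gsym (-1) N a = 0 := (hspl A N _ _ hAA (-1) a).1 ha
  have hO : pwm (𝟙 N - πA ≫ ιA) b ≫ gsym 1 N b = 0 := by
    have : 𝟙 N - πA ≫ ιA = πB ≫ ιB := by
      rw [← htot, add_sub_cancel_left]
    rw [this]
    exact (hspl B N _ _ hBB 1 b).1 hb
  have hee : (πA ≫ ιA) ≫ (πA ≫ ιA) = πA ≫ ιA := by
    rw [Category.assoc, ← Category.assoc ιA, hAA, Category.id_comp]
  have hnil : ∀ r : End N, Num (X := N) r → IsNilpotent r :=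
    hnlp hsc N (πA ≫ ιA) hee a b hE hO
  have hnilP : ∀ r : End P, Num (X := P) r → IsNilpotent r := nil_retract ι π hr hnil
  -- the compression of the projection
  have hoff : ∀ S : N ⟶ N, tr (πA ≫ ιA ≫ (π ≫ ι) ≫ πB ≫ ιB ≫ S) = 0 := by
    intro S
    have := htre hsc A B a b ha hb (ιA ≫ (π ≫ ι) ≫ πB) (ιB ≫ S ≫ πA)
    rw [tr_cyc]
    simpa only [Category.assoc] using this
  let x : P ⟶ P := (ι ≫ πA) ≫ (ιA ≫ π)
  have hx : Num (x ≫ x - x) := by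
    intro s
    have e1 : (x ≫ x - x) ≫ s =
        - (ι ≫ (πA ≫ ιA ≫ (π ≫ ι) ≫ πB ≫ ιB ≫ (π ≫ s))) := by
      have e2 : πB ≫ ιB = 𝟙 N - πA ≫ ιA := by rw [← htot, add_sub_cancel_left]
      have e3 : ι ≫ (πA ≫ ιA ≫ (π ≫ ι) ≫ πB ≫ ιB ≫ (π ≫ s)) =
          ι ≫ πA ≫ ιA ≫ π ≫ ι ≫ (πB ≫ ιB) ≫ π ≫ s := by simp only [Category.assoc]
      rw [e3, e2]
      simp only [Preadditive.sub_comp, Preadditive.comp_sub, Category.id_comp, x,
        Category.assoc, neg_sub]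
      congr 1
      have e4 : π ≫ ι ≫ π ≫ s = π ≫ (ι ≫ π) ≫ s := by simp only [Category.assoc]
      rw [e4, hr, Category.id_comp]
    rw [e1]
    have e5 : tr (-(ι ≫ (πA ≫ ιA ≫ (π ≫ ι) ≫ πB ≫ ιB ≫ (π ≫ s)))) =
        - tr (ι ≫ (πA ≫ ιA ≫ (π ≫ ι) ≫ πB ≫ ιB ≫ (π ≫ s))) := by
      rw [← zero_sub, tr_sub', tr_zero', zero_sub]
    rw [e5, tr_cyc, neg_eq_zero]
    have := hoff (π ≫ s ≫ ι)
    simpa only [Category.assoc] using this
  obtain ⟨p, hp', hpx'⟩ : ∃ p : P ⟶ P, p ≫ p = p ∧ Num (p - x) :=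
    lift_idem (R := End P) {x | Num (X := P) x} (Num.zero _)
      (fun x hx y hy => Num.add hx hy) (fun x hx y => Num.comp_left hx y)
      (fun x hx y => Num.comp_right hx y) hnilP x hx
  refine kimuraFin_of_idem P p hp' (fun X j q h1 h2 => ⟨a, ?_⟩) (fun X j q h1 h2 => ⟨b, ?_⟩)
  · refine unit_retract hspl (j ≫ ι ≫ πA) (ιA ≫ π ≫ q) (nil_retract j q h1 hnilP) ?_ (-1) a ha
    have e1 : (j ≫ ι ≫ πA) ≫ (ιA ≫ π ≫ q) - 𝟙 X = j ≫ (x - p) ≫ q := by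
      have e2 : 𝟙 X = j ≫ p ≫ q := by
        have : j ≫ (q ≫ j) ≫ q = (j ≫ q) ≫ (j ≫ q) := by simp only [Category.assoc]
        rw [← h2, this, h1, Category.id_comp]
      rw [e2]
      simp only [Preadditive.sub_comp, Preadditive.comp_sub, x, Category.assoc]
    rw [e1]
    intro s
    have h3 : Num (x - p) := by
      intro s'
      have := hpx' s'
      rw [Preadditive.sub_comp, tr_sub', sub_eq_zero] at this ⊢
      exact this.symm
    rw [Category.assoc, tr_cyc]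
    have := h3 (q ≫ s ≫ j)
    simpa only [Category.assoc] using this
  · refine unit_retract hspl (j ≫ ι ≫ πB) (ιB ≫ π ≫ q) (nil_retract j q h1 hnilP) ?_ 1 b hb
    have e1 : (j ≫ ι ≫ πB) ≫ (ιB ≫ π ≫ q) - 𝟙 X = j ≫ (p - x) ≫ q := by
      have e2 : 𝟙 X = j ≫ (𝟙 P - p) ≫ q := by
        have : j ≫ (q ≫ j) ≫ q = (j ≫ q) ≫ (j ≫ q) := by simp only [Category.assoc]
        rw [← h2, this, h1, Category.id_comp]
      have e3 : (j ≫ ι ≫ πB) ≫ (ιB ≫ π ≫ q) = j ≫ ι ≫ (πB ≫ ιB) ≫ π ≫ q := by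
        simp only [Category.assoc]
      have e4 : πB ≫ ιB = 𝟙 N - πA ≫ ιA := by rw [← htot, add_sub_cancel_left]
      rw [e3, e4]
      conv_lhs => rw [e2]
      have e5 : j ≫ ι ≫ (𝟙 N - πA ≫ ιA) ≫ π ≫ q = j ≫ (𝟙 P - x) ≫ q := by
        simp only [Preadditive.sub_comp, Preadditive.comp_sub, x, Category.assoc,
          Category.id_comp]
        congr 2
        rw [← Category.assoc ι, hr, Category.id_comp]
      rw [e5]
      simp only [Preadditive.sub_comp, Preadditive.comp_sub]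
      abel
    rw [e1]
    intro s
    rw [Category.assoc, tr_cyc]
    have := hpx' (q ≫ s ≫ j)
    simpa only [Category.assoc] using this

end

end Pool.Agent.W813.NC
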