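import Pool.Agent.W492.KC.Defs
import Pool.Agent.W239.KC.Rpt
import Pool.Agent.W225.KC.Nil
import Pool.Agent.W191.KCSym

/-!
# Kimura finiteness descends from the orbit category: definitions and statements of the parts
-/

set_option linter.unusedSectionVars false

open CategoryTheory Limits MonoidalCategory

namespace Pool.Agent.W813.NC

open Pool.Agent.W492.MT (tpow tr)
open Pool.Agent.W492.KC (swp gins gsym EvenFin OddFin)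
open Pool.Agent.W239.KC (rpt)

universe v u v' u'

section
variable {T : Type u} [Category.{v} T] [MonoidalCategory T] [SymmetricCategory T] [Preadditive T]

/-- `X` is Kimura finite: the sum of an evenly and an oddly finite dimensional object. -/
def KimuraFin [HasBinaryBiproducts T] (X : T) : Prop :=
  ∃ A B : T, EvenFin A ∧ OddFin B ∧ Nonempty (X ≅ A ⊞ B)

/-- `f ⊗ (f ⊗ ⋯)` -/
def pwm {X Y : T} (f : X ⟶ Y) : ∀ n : ℕ, tpow X n ⟶ tpow Y n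
  | 0 => 𝟙 _
  | n + 1 => f ⊗ₘ pwm f n

/-- `x` is numerically trivial. -/
def Num [RightRigidCategory T] {X : T} (x : X ⟶ X) : Prop := ∀ s : X ⟶ X, tr (x ≫ s) = 0

end

/-- `H X Y i` (`i : ℤ`) is a grading of the groups `Hom(Φ X, Φ Y)`, compatible with the composition
and the tensor product, whose part of degree `0` is the image of `Hom(X, Y)`. -/
structure OrbitGrading {C : Type u} [Category.{v} C] [MonoidalCategory C]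
    {D : Type u'} [Category.{v'} D] [Preadditive D] [MonoidalCategory D]
    (F : Type) [Field F] [Linear F D] (Φ : C ⥤ D) [Φ.Monoidal]
    (H : ∀ X Y : C, ℤ → Submodule F (Φ.obj X ⟶ Φ.obj Y)) : Prop where
  internal : ∀ X Y, DirectSum.IsInternal (H X Y)
  map_mem : ∀ {X Y : C} (f : X ⟶ Y), Φ.map f ∈ H X Y 0
  exists_map : ∀ {X Y : C} (f : Φ.obj X ⟶ Φ.obj Y), f ∈ H X Y 0 → ∃ g : X ⟶ Y, Φ.map g = f
  comp : ∀ {X Y Z : C} {i j : ℤ} (f : Φ.obj X ⟶ Φ.obj Y) (g : Φ.obj Y ⟶ Φ.obj Z),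
    f ∈ H X Y i → g ∈ H Y Z j → f ≫ g ∈ H X Z (i + j)
  tensor : ∀ {X Y Z W : C} {i j : ℤ} (f : Φ.obj X ⟶ Φ.obj Y) (g : Φ.obj Z ⟶ Φ.obj W),
    f ∈ H X Y i → g ∈ H Z W j →
    Functor.OplaxMonoidal.δ Φ X Z ≫ (f ⊗ₘ g) ≫ Functor.LaxMonoidal.μ Φ Y W ∈
      H (X ⊗ Z) (Y ⊗ W) (i + j)

/-- `Φ(X)^{⊗ n} ≅ Φ(X^{⊗ n})` -/
def kap {C : Type u} [Category.{v} C] [MonoidalCategory C]
    {D : Type u'} [Category.{v'} D] [MonoidalCategory D] (Φ : C ⥤ D) [Φ.Monoidal] (X : C) :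
    ∀ n : ℕ, tpow (Φ.obj X) n ≅ Φ.obj (tpow X n)
  | 0 => Functor.Monoidal.εIso Φ
  | n + 1 => whiskerLeftIso (Φ.obj X) (kap Φ X n) ≪≫ Functor.Monoidal.μIso Φ X (tpow X n)

/-! ## The parts -/

section
variable (T : Type u) [Category.{v} T] [MonoidalCategory T] [SymmetricCategory T]

/-- TRR -/
def S_TRR [RightRigidCategory T] : Prop := ∀ (X Z : T) (g : X ⊗ Z ⟶ X ⊗ Z), tr g = tr (rpt Z g)

variable [Preadditive T] [MonoidalPreadditive T]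

/-- PWG -/
def S_PWG : Prop := ∀ (X Y : T) (f : X ⟶ Y) (ε : ℤ) (n : ℕ),
  gsym ε X n ≫ pwm f n = pwm f n ≫ gsym ε Y n

/-- SPL -/
def S_SPL : Prop := ∀ (A N : T) (ι : A ⟶ N) (π : N ⟶ A), ι ≫ π = 𝟙 A → ∀ (ε : ℤ) (n : ℕ),
  (gsym ε A n = 0 ↔ pwm (π ≫ ι) n ≫ gsym ε N n = 0)

variable [RightRigidCategory T]

/-- NWT : Newton's identities for the traces of the exterior (symmetric) powers. -/
def S_NWT : Prop := ∀ (X : T) (f : End X) (ε : ℤ), ε * ε = 1 → ∀ n : ℕ,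
  tr (gsym ε X (n + 1) ≫ pwm (f : X ⟶ X) (n + 1)) = ∑ k ∈ Finset.range (n + 1),
    (ε ^ k * (n.descFactorial k : ℤ)) •
      (tr (gsym ε X (n - k) ≫ pwm (f : X ⟶ X) (n - k)) ≫ tr (X := X) (f ^ (k + 1) : End X))

/-- TRE : a trace through an even and an odd object is zero. -/
def S_TRE (F : Type) [Field F] [CharZero F] [Linear F T] : Prop :=
  (∀ e : 𝟙_ T ⟶ 𝟙_ T, ∃ a : F, e = a • 𝟙 _) →
  ∀ (A B : T) (a b : ℕ), gsym (-1) A a = 0 → gsym 1 B b = 0 → ∀ (f : A ⟶ B) (g : B ⟶ A),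
    tr (f ≫ g) = 0

/-- NUM -/
def S_NUM [IsIdempotentComplete T] (F : Type) [Field F] [CharZero F] [Linear F T] : Prop :=
  (∀ e : 𝟙_ T ⟶ 𝟙_ T, ∃ a : F, e = a • 𝟙 _) →
  ∀ (N : T) (p q : N ⟶ N), p ≫ p = p → q ≫ q = q → ∀ (a b : ℕ),
    pwm p a ≫ gsym (-1) N a = 0 → pwm q b ≫ gsym 1 N b = 0 →
    (∀ s : N ⟶ N, tr (p ≫ q ≫ s) = 0) ∧ (∀ s : N ⟶ N, tr (q ≫ p ≫ s) = 0)

/-- NLP : on a Kimura finite object the numerically trivial endomorphisms are nilpotent. -/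
def S_NLP [IsIdempotentComplete T] (F : Type) [Field F] [CharZero F] [Linear F T] : Prop :=
  (∀ e : 𝟙_ T ⟶ 𝟙_ T, ∃ a : F, e = a • 𝟙 _) →
  ∀ (N : T) (p : N ⟶ N), p ≫ p = p → ∀ (a b : ℕ),
    pwm p a ≫ gsym (-1) N a = 0 → pwm (𝟙 N - p) b ≫ gsym 1 N b = 0 →
    ∀ r : End N, Num (X := N) r → IsNilpotent r

end

/-- ALG -/
def S_ALG (F : Type) [Field F] [CharZero F] : Prop := ∀ (t e h : ℕ → F), e 0 = 1 → h 0 = 1 →
  (∀ n, e (n + 1) = ∑ k ∈ Finset.range (n + 1),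
    ((-1) ^ k * (n.descFactorial k : F)) * (e (n - k) * t (k + 1))) →
  (∀ n, h (n + 1) = ∑ k ∈ Finset.range (n + 1),
    (n.descFactorial k : F) * (h (n - k) * t (k + 1))) →
  (∃ a, ∀ n, a ≤ n → e n = 0) → (∃ b, ∀ n, b ≤ n → h n = 0) → t 1 = 0

/-- NIL -/
def S_NIL (K : Type) [Field K] [CharZero K] (R : Type v) [Ring R] [Algebra K R] : Prop := ∀ (a b : R) (n m : ℕ), b ^ m = 0 →
  (∀ r : R, (a * r) ^ n = 0) → IsNilpotent (a + b)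

/-- LIF : lifting an idempotent through a nil kernel. -/
def S_LIF (R : Type v) (S : Type v') [Ring R] [Ring S] (φ : R →+* S) (I : Set S) : Prop :=
  Function.Injective φ → (0 : S) ∈ I → (∀ x ∈ I, ∀ y ∈ I, x + y ∈ I) →
  (∀ x ∈ I, ∀ y, x * y ∈ I) → (∀ x ∈ I, ∀ y, y * x ∈ I) → (∀ x ∈ I, IsNilpotent x) →
  ∀ (x : R) (e : S), e * e = e → φ x - e ∈ I → ∃ p : R, p * p = p ∧ φ p - e ∈ I

section
variable {C : Type u} [Category.{v} C] [Preadditive C] [MonoidalCategory C] [SymmetricCategory C]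
  {D : Type u'} [Category.{v'} D] [Preadditive D] [MonoidalCategory D] [SymmetricCategory D]
  [MonoidalPreadditive D] (F : Type) [Field F] [Linear F D] [MonoidalLinear F D]
  (Φ : C ⥤ D)

/-- PSI : the one-parameter group defined by the grading. -/
def S_PSI [Φ.Monoidal] (H : ∀ X Y : C, ℤ → Submodule F (Φ.obj X ⟶ Φ.obj Y)) : Prop :=
  OrbitGrading F Φ H → ∀ t : F, t ≠ 0 →
    ∃ ψ : ∀ X Y : C, (Φ.obj X ⟶ Φ.obj Y) →ₗ[F] (Φ.obj X ⟶ Φ.obj Y),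
      (∀ (X Y : C) (i : ℤ) (f : Φ.obj X ⟶ Φ.obj Y), f ∈ H X Y i → ψ X Y f = t ^ i • f) ∧
      (∀ (X Y Z : C) (f : Φ.obj X ⟶ Φ.obj Y) (g : Φ.obj Y ⟶ Φ.obj Z),
        ψ X Z (f ≫ g) = ψ X Y f ≫ ψ Y Z g) ∧
      (∀ (X Y Z W : C) (f : Φ.obj X ⟶ Φ.obj Y) (g : Φ.obj Z ⟶ Φ.obj W),
        ψ (X ⊗ Z) (Y ⊗ W)
            (Functor.OplaxMonoidal.δ Φ X Z ≫ (f ⊗ₘ g) ≫ Functor.LaxMonoidal.μ Φ Y W) =
          Functor.OplaxMonoidal.δ Φ X Z ≫ (ψ X Y f ⊗ₘ ψ Z W g) ≫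
            Functor.LaxMonoidal.μ Φ Y W)

/-- VDM : the part of degree 0 is determined by the one-parameter group. -/
def S_VDM [CharZero F] [Φ.Monoidal] (H : ∀ X Y : C, ℤ → Submodule F (Φ.obj X ⟶ Φ.obj Y)) : Prop :=
  OrbitGrading F Φ H → ∀ (X Y : C) (f : Φ.obj X ⟶ Φ.obj Y), ∃ f₀ ∈ H X Y 0,
    ∀ (V : Type v') [AddCommGroup V] [Module F V] (φ : (Φ.obj X ⟶ Φ.obj Y) →ₗ[F] V),
      (∀ (t : F) (ψ : (Φ.obj X ⟶ Φ.obj Y) →ₗ[F] (Φ.obj X ⟶ Φ.obj Y)), t ≠ 0 →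
        (∀ (i : ℤ) (g : Φ.obj X ⟶ Φ.obj Y), g ∈ H X Y i → ψ g = t ^ i • g) → φ (ψ f) = φ f) →
      φ f = φ f₀

/-- FUN : braided functors and the symmetrisation operators. -/
def S_FUN [Φ.Braided] [Φ.Additive] : Prop := ∀ (X : C) (ε : ℤ) (n : ℕ),
  gsym ε (Φ.obj X) n ≫ (kap Φ X n).hom = (kap Φ X n).hom ≫ Φ.map (gsym ε X n)

/-- PEV : the one-parameter group preserves the even (odd) idempotents. -/
def S_PEV [Φ.Braided] [Φ.Additive]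
    (H : ∀ X Y : C, ℤ → Submodule F (Φ.obj X ⟶ Φ.obj Y)) : Prop :=
  OrbitGrading F Φ H → ∀ (t : F) (ψ : ∀ X Y : C, (Φ.obj X ⟶ Φ.obj Y) →ₗ[F] (Φ.obj X ⟶ Φ.obj Y)),
    t ≠ 0 →
    (∀ (X Y : C) (i : ℤ) (f : Φ.obj X ⟶ Φ.obj Y), f ∈ H X Y i → ψ X Y f = t ^ i • f) →
    (∀ (X Y Z : C) (f : Φ.obj X ⟶ Φ.obj Y) (g : Φ.obj Y ⟶ Φ.obj Z),
        ψ X Z (f ≫ g) = ψ X Y f ≫ ψ Y Z g) →
    (∀ (X Y Z W : C) (f : Φ.obj X ⟶ Φ.obj Y) (g : Φ.obj Z ⟶ Φ.obj W),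
        ψ (X ⊗ Z) (Y ⊗ W)
            (Functor.OplaxMonoidal.δ Φ X Z ≫ (f ⊗ₘ g) ≫ Functor.LaxMonoidal.μ Φ Y W) =
          Functor.OplaxMonoidal.δ Φ X Z ≫ (ψ X Y f ⊗ₘ ψ Z W g) ≫
            Functor.LaxMonoidal.μ Φ Y W) →
    ∀ (X : C) (p : Φ.obj X ⟶ Φ.obj X) (ε : ℤ) (n : ℕ),
      pwm p n ≫ gsym ε (Φ.obj X) n = 0 → pwm (ψ X X p) n ≫ gsym ε (Φ.obj X) n = 0

end

end Pool.Agent.W813.NC
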